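import Pool.Agent.Q31.GLV.Stm

/-!
# Job DEC of project GLV (MP_2f8bd9_al)
-/

set_option autoImplicit false

namespace Pool.Agent.Q149.GLV

open Pool.Agent.Q31.GLV
open Module Cardinal Submodule

theorem t_DEC : S_DEC := by
  intro F V _ _ _ hinf
  obtain ⟨ι, b⟩ : Σ ι : Type, Basis ι F V := ⟨_, Basis.ofVectorSpace F V⟩
  have hr : #ι = Module.rank F V := b.mk_eq_rank''
  have hι : ℵ₀ ≤ #ι := by rw [hr]; exact hinf
  have hcP : #(ι × ℤ) = #ι := by
    rw [mk_prod, lift_id, lift_id, mk_int]
    exact mul_aleph0_eq hι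
  have hcard : #((ι × ℤ) ⊕ ι) = #ι := by
    rw [mk_sum, lift_id, lift_id, hcP]
    exact add_eq_self hι
  obtain ⟨σ⟩ := Cardinal.eq.1 hcard
  let b' : Basis ((ι × ℤ) ⊕ ι) F V := b.reindex σ.symm
  have hli : LinearIndependent F (fun p : ι × ℤ => b' (Sum.inl p)) :=
    b'.linearIndependent.comp _ Sum.inl_injective
  refine ⟨ι, fun p => b' (Sum.inl p), hr, hli, ?_, ?_⟩
  · rw [rank_span hli, mk_range_eq _ hli.injective, hcP, hr]
  · apply le_antisymm
    · exact rank_quotient_le _
    · let φ : V →ₗ[F] (ι →₀ F) :=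
        b'.constr F (Sum.elim (fun _ => 0) (fun i => Finsupp.single i 1))
      have hφ : span F (Set.range fun p : ι × ℤ => b' (Sum.inl p)) ≤ LinearMap.ker φ := by
        rw [span_le]
        rintro _ ⟨p, rfl⟩
        show φ (b' (Sum.inl p)) = 0
        rw [Basis.constr_basis]
        rfl
      have h1 : LinearIndependent F (fun i : ι =>
          (span F (Set.range fun p : ι × ℤ => b' (Sum.inl p))).mkQ (b' (Sum.inr i))) := by
        apply LinearIndependent.of_comp (liftQ _ φ hφ)
        have h2 : (fun i : ι => (Finsupp.single i (1 : F))) = (liftQ _ φ hφ) ∘ (fun i : ι =>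
            (span F (Set.range fun p : ι × ℤ => b' (Sum.inl p))).mkQ (b' (Sum.inr i))) := by
          funext i
          show _ = φ (b' (Sum.inr i))
          rw [Basis.constr_basis]
          rfl
        rw [← h2]
        have h3 := (Finsupp.basisSingleOne (R := F) (ι := ι)).linearIndependent
        rwa [Finsupp.coe_basisSingleOne] at h3
      rw [← hr]
      exact h1.cardinal_le_rank

end Pool.Agent.Q149.GLV
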